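import Pool.Agent.Helper45.LGB.St2

set_option autoImplicit false

namespace Pool.Agent.Helper9.LGB

open Pool.Agent.Helper45.LGB Pool.Agent.Helper83.RB

open scoped commutatorElement

/-- BDG -/
theorem hBDG (hBAL : StBAL) : StBDG := by
  intro p R Δ c hH G _ hG hfg X hX x hx
  obtain ⟨-, -, b3, b4⟩ := hBAL G X
  obtain ⟨hfin, hcard⟩ := b4 Δ R x hx hX
  have hmem : x ∈ Ball X x R := b3 R x
  have hfinH : Finite (Subgroup.closure (Ball X x R)) := by
    have h1 := hfg hfin.toFinset
    rwa [Set.Finite.coe_toFinset] at h1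
  have hexp : ∀ h : Subgroup.closure (Ball X x R), h ^ p = 1 := by
    intro h
    apply Subtype.ext
    rw [Subgroup.coe_pow, Subgroup.coe_one]
    exact hG _
  have hf : ∃ f : Fin ((Δ + 1) ^ R) → Subgroup.closure (Ball X x R),
      Subgroup.closure (Set.range f) = ⊤ := by
    have hF : Finite (Ball X x R) := hfin
    have := Fintype.ofFinite (Ball X x R)
    have hc : Fintype.card (Ball X x R) ≤ Fintype.card (Fin ((Δ + 1) ^ R)) := by
      rw [Fintype.card_fin, ← Nat.card_eq_fintype_card, Nat.card_coe_set_eq]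
      exact hcard
    obtain ⟨j⟩ := Function.Embedding.nonempty_of_card_le hc
    have hne : Nonempty (Ball X x R) := ⟨⟨x, hmem⟩⟩
    have hsurj := Function.invFun_surjective j.injective
    refine ⟨fun i => ⟨(Function.invFun j i).1, Subgroup.subset_closure (Function.invFun j i).2⟩,
      ?_⟩
    rw [eq_top_iff, ← Subgroup.closure_closure_coe_preimage (k := Ball X x R)]
    refine Subgroup.closure_mono ?_
    intro y hy
    obtain ⟨i, hi⟩ := hsurj ⟨y.1, hy⟩
    exact ⟨i, Subtype.ext (by simp only [hi])⟩
  have h1 := hH (Subgroup.closure (Ball X x R)) hexp hf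
  rw [← Subgroup.top_subtype_lowerCentralSeries, h1, Subgroup.map_bot]

end Pool.Agent.Helper9.LGB
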