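import Pool.Agent.Helper45.LGB.St2

set_option autoImplicit false

namespace Pool.Agent.Helper9.LGB

open Pool.Agent.Helper45.LGB Pool.Agent.Helper83.RB

open scoped commutatorElement

private theorem fc_inv {n : ℕ} {G : Type} [Group G] (S : Finset (Fin n)) (h : G) :
    (fc S h)⁻¹ = fc S h⁻¹ := by
  funext T
  simp only [Pi.inv_apply, fc]
  split_ifs
  · rfl
  · exact inv_one

private theorem fc_comm {n : ℕ} {G : Type} [Group G] (S S' : Finset (Fin n)) (h h' : G) :
    ⁅fc S h, fc S' h'⁆ = fc (S ∪ S') ⁅h, h'⁆ := by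
  funext T
  simp only [commutatorElement_def, Pi.mul_apply, Pi.inv_apply, fc, Finset.union_subset_iff]
  by_cases h1 : S ⊆ T <;> by_cases h2 : S' ⊆ T <;> simp [h1, h2]

private theorem wt_union {n : ℕ} (ω : Fin n → ℕ) (S S' : Finset (Fin n)) :
    wt ω (S ∪ S') ≤ wt ω S + wt ω S' := by
  have h := Finset.sum_union_inter (s₁ := S) (s₂ := S') (f := ω)
  unfold wt
  omega

/-- generators -/
private def gs {n : ℕ} (G : Type) [Group G] (ω : Fin n → ℕ) (t : ℕ) :
    Set (Finset (Fin n) → G) :=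
  {F | ∃ (S : Finset (Fin n)) (h : G), h ∈ gm G (t + wt ω S) ∧ F = fc S h}

private theorem gs_inv {n : ℕ} {G : Type} [Group G] {ω : Fin n → ℕ} {t : ℕ}
    {F : Finset (Fin n) → G} (hF : F ∈ gs G ω t) : F⁻¹ ∈ gs G ω t := by
  obtain ⟨S, h, hh, rfl⟩ := hF
  exact ⟨S, h⁻¹, Subgroup.inv_mem _ hh, fc_inv S h⟩

private theorem gs_comm (hGMA : StGMA) {n : ℕ} {G : Type} [Group G] {ω : Fin n → ℕ} {t t' : ℕ}
    {F F' : Finset (Fin n) → G} (hF : F ∈ gs G ω t) (hF' : F' ∈ gs G ω t') :
    ⁅F, F'⁆ ∈ gs G ω (t + t') := by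
  obtain ⟨S, h, hh, rfl⟩ := hF
  obtain ⟨S', h', hh', rfl⟩ := hF'
  obtain ⟨g1, g2, -⟩ := hGMA G
  refine ⟨S ∪ S', ⁅h, h'⁆, ?_, fc_comm S S' h h'⟩
  refine g2 _ ((t + wt ω S) + (t' + wt ω S')) ?_
    (g1 _ _ (Subgroup.commutator_mem_commutator hh hh'))
  have := wt_union ω S S'
  omega

/-- CUB -/
theorem hCUB (hGMA : StGMA) : StCUB := by
  intro n G _ ω
  have hCb : ∀ t, (Cb ω t : Subgroup (Finset (Fin n) → G)) = Subgroup.closure (gs G ω t) :=
    fun t => rfl
  have hmono : ∀ t t' : ℕ, t ≤ t' →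
      (Cb ω t' : Subgroup (Finset (Fin n) → G)) ≤ Cb ω t := by
    intro t t' htt
    rw [hCb, hCb]
    refine Subgroup.closure_mono ?_
    rintro F ⟨S, h, hh, rfl⟩
    exact ⟨S, h, (hGMA G).2.1 _ _ (by omega) hh, rfl⟩
  -- generators of `Cb 0` normalise
  have hA : ∀ (s : ℕ) (b : Finset (Fin n) → G), b ∈ gs G ω 0 →
      ∀ x ∈ (Cb ω s : Subgroup (Finset (Fin n) → G)), b * x * b⁻¹ ∈ Cb ω s := by
    intro s b hb x hx
    rw [hCb] at hx
    induction hx using Subgroup.closure_induction with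
    | mem x hx =>
      have h1 : b * x * b⁻¹ = ⁅b, x⁆ * x := by
        rw [commutatorElement_def]; group
      rw [h1]
      refine Subgroup.mul_mem _ ?_ ?_
      · have h2 := gs_comm hGMA hb hx
        rw [zero_add] at h2
        rw [hCb]
        exact Subgroup.subset_closure h2
      · rw [hCb]
        exact Subgroup.subset_closure hx
    | one => simp only [mul_one, mul_inv_cancel]; exact Subgroup.one_mem _
    | mul x y _ _ hx hy =>
      have h1 : b * (x * y) * b⁻¹ = (b * x * b⁻¹) * (b * y * b⁻¹) := by group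
      rw [h1]
      exact Subgroup.mul_mem _ hx hy
    | inv x _ hx =>
      have h1 : b * x⁻¹ * b⁻¹ = (b * x * b⁻¹)⁻¹ := by group
      rw [h1]
      exact Subgroup.inv_mem _ hx
  have hB : ∀ (s : ℕ) (b : Finset (Fin n) → G),
      b ∈ (Cb ω 0 : Subgroup (Finset (Fin n) → G)) →
      (∀ x ∈ (Cb ω s : Subgroup (Finset (Fin n) → G)), b * x * b⁻¹ ∈ Cb ω s) ∧
      (∀ x ∈ (Cb ω s : Subgroup (Finset (Fin n) → G)), b⁻¹ * x * b ∈ Cb ω s) := by
    intro s b hb
    rw [hCb] at hb
    induction hb using Subgroup.closure_induction with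
    | mem b hb =>
      refine ⟨hA s b hb, fun x hx => ?_⟩
      have h1 := hA s b⁻¹ (gs_inv hb) x hx
      rwa [inv_inv] at h1
    | one =>
      constructor <;> intro x hx <;> simpa using hx
    | mul b b' _ _ hb hb' =>
      constructor
      · intro x hx
        have h1 : b * b' * x * (b * b')⁻¹ = b * (b' * x * b'⁻¹) * b⁻¹ := by group
        rw [h1]
        exact hb.1 _ (hb'.1 x hx)
      · intro x hx
        have h1 : (b * b')⁻¹ * x * (b * b') = b'⁻¹ * (b⁻¹ * x * b) * b' := by group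
        rw [h1]
        exact hb'.2 _ (hb.2 x hx)
    | inv b _ hb =>
      constructor
      · intro x hx
        rw [inv_inv]
        exact hb.2 x hx
      · intro x hx
        rw [inv_inv]
        exact hb.1 x hx
  refine ⟨fun t t' => ?_, hmono⟩
  rw [Subgroup.commutator_le]
  intro a ha b hb
  have ha' := ha
  rw [hCb] at ha'
  induction ha' using Subgroup.closure_induction with
  | mem a hag =>
    have hb' := hb
    rw [hCb] at hb'
    clear ha
    induction hb' using Subgroup.closure_induction with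
    | mem b hbg =>
      rw [hCb]
      exact Subgroup.subset_closure (gs_comm hGMA hag hbg)
    | one =>
      rw [commutatorElement_one_right]
      exact Subgroup.one_mem _
    | mul b b' hb1 hb1' ih ih' =>
      have hb2 := ih (by rw [hCb]; exact hb1)
      have hb2' := ih' (by rw [hCb]; exact hb1')
      have h1 : ⁅a, b * b'⁆ = ⁅a, b⁆ * (b * ⁅a, b'⁆ * b⁻¹) := by
        simp only [commutatorElement_def]; group
      rw [h1]
      refine Subgroup.mul_mem _ hb2 ((hB (t + t') b ?_).1 _ hb2')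
      exact hmono 0 t' (Nat.zero_le _) (by rw [hCb]; exact hb1)
    | inv b hb1 ih =>
      have hb2 := ih (by rw [hCb]; exact hb1)
      have h1 : ⁅a, b⁻¹⁆ = b⁻¹ * ⁅a, b⁆⁻¹ * b := by
        simp only [commutatorElement_def]; group
      rw [h1]
      exact (hB (t + t') b (hmono 0 t' (Nat.zero_le _) (by rw [hCb]; exact hb1))).2 _
        (Subgroup.inv_mem _ hb2)
  | one =>
    rw [commutatorElement_one_left]
    exact Subgroup.one_mem _
  | mul a a' ha1 ha1' ih ih' =>
    have ha2 := ih (by rw [hCb]; exact ha1)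
    have ha2' := ih' (by rw [hCb]; exact ha1')
    have h1 : ⁅a * a', b⁆ = (a * ⁅a', b⁆ * a⁻¹) * ⁅a, b⁆ := by
      simp only [commutatorElement_def]; group
    rw [h1]
    exact Subgroup.mul_mem _ ((hB (t + t') a
      (hmono 0 t (Nat.zero_le _) (by rw [hCb]; exact ha1))).1 _ ha2') ha2
  | inv a ha1 ih =>
    have ha2 := ih (by rw [hCb]; exact ha1)
    have h1 : ⁅a⁻¹, b⁆ = a⁻¹ * ⁅a, b⁆⁻¹ * a := by
      simp only [commutatorElement_def]; group
    rw [h1]
    exact (hB (t + t') a (hmono 0 t (Nat.zero_le _) (by rw [hCb]; exact ha1))).2 _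
      (Subgroup.inv_mem _ ha2)

end Pool.Agent.Helper9.LGB
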